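import Mathlib

/-!
# TS57/Theta (MP_3f8e47_nt): one threshold function
-/

set_option autoImplicit false

namespace Pool.Agent.TS57

open Filter

/-- An explicit bound for all `N ≥ 6` and an asymptotic one give one threshold function. -/
theorem theta {f : ℕ → ℕ} {T : ℕ → Prop}
    (h1 : ∀ N : ℕ, 6 ≤ N → ¬ T N → 9 * f N + 33 ≤ 7 * N + 6 * Nat.sqrt (N + 2))
    (h2 : ∀ e : ℝ, 0 < e → ∃ N₀ : ℕ, ∀ N : ℕ, N₀ ≤ N → (3 / 4 + e) * N ≤ f N → T N) :
    ∃ θ : ℕ → ℝ, Tendsto θ atTop (nhds (3 / 4)) ∧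
      (∀ N : ℕ, 6 ≤ N → θ N ≤ 7 / 9 + 2 / 3 * (Real.sqrt (N + 2) / N)) ∧
        ∀ N : ℕ, 6 ≤ N → θ N * N < f N → T N := by
  classical
  refine ⟨fun N => if T N then 3 / 4 else max (3 / 4) ((f N : ℝ) / N), ?_, ?_, ?_⟩
  · rw [Metric.tendsto_atTop]
    intro e he
    obtain ⟨N₀, hN₀⟩ := h2 (e / 2) (by linarith)
    refine ⟨N₀ + 1, fun N hN => ?_⟩
    have hNpos : (0 : ℝ) < N := by exact_mod_cast (by omega : 0 < N)
    by_cases hT : T N
    · simp only [if_pos hT, dist_self]
      exact he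
    · simp only [if_neg hT]
      have h3 : (f N : ℝ) < (3 / 4 + e / 2) * N := by
        by_contra hcon
        push Not at hcon
        exact hT (hN₀ N (by omega) hcon)
      have h4 : (f N : ℝ) / N < 3 / 4 + e / 2 := by
        rw [div_lt_iff₀ hNpos]
        exact h3
      have h5 : max (3 / 4 : ℝ) ((f N : ℝ) / N) < 3 / 4 + e := max_lt (by linarith) (by linarith)
      have h6 : (3 / 4 : ℝ) ≤ max (3 / 4 : ℝ) ((f N : ℝ) / N) := le_max_left _ _
      rw [Real.dist_eq, abs_lt]
      constructor <;> linarith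
  · intro N hN
    have hNpos : (0 : ℝ) < N := by exact_mod_cast (by omega : 0 < N)
    have hs : (0 : ℝ) ≤ 2 / 3 * (Real.sqrt (N + 2) / N) := by positivity
    by_cases hT : T N
    · simp only [if_pos hT]
      linarith
    · simp only [if_neg hT]
      apply max_le (by linarith)
      have h3 : (9 : ℝ) * f N + 33 ≤ 7 * N + 6 * (Nat.sqrt (N + 2) : ℝ) := by
        exact_mod_cast h1 N hN hT
      have h4 : (Nat.sqrt (N + 2) : ℝ) ≤ Real.sqrt ((N : ℝ) + 2) := by
        have := Real.nat_sqrt_le_real_sqrt (a := N + 2)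
        push_cast at this
        exact this
      have h5 : 7 / 9 + 2 / 3 * (Real.sqrt (N + 2) / N) =
          (7 / 9 * N + 2 / 3 * Real.sqrt (N + 2)) / N := by
        field_simp
      rw [h5]
      apply div_le_div_of_nonneg_right _ hNpos.le
      linarith
  · intro N hN h
    by_contra hT
    simp only [if_neg hT] at h
    have hNpos : (0 : ℝ) < N := by exact_mod_cast (by omega : 0 < N)
    have h3 : (f N : ℝ) / N * N ≤ max (3 / 4 : ℝ) ((f N : ℝ) / N) * N :=
      mul_le_mul_of_nonneg_right (le_max_right _ _) hNpos.le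
    rw [div_mul_cancel₀ _ hNpos.ne'] at h3
    linarith

end Pool.Agent.TS57
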